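import Mathlib

/-!
# MP_d629b1_an, module E2: the bracket with respect to `ℓℤ` and rotations of windows
-/

set_option autoImplicit false

open MeasureTheory Matrix
open scoped ComplexConjugate ContDiff

noncomputable section

namespace Wav

/-- the bracket with respect to `ℓℤ` -/
def brk (ℓ : ℕ) (w u : ℝ → ℂ) (x : ℝ) : ℂ := ∑' j : ℤ, conj (w (x + ℓ * j)) * u (x + ℓ * j)

/-- zero for large `|x|` -/
def Bdd (u : ℝ → ℂ) : Prop := ∃ r : ℝ, ∀ x, r ≤ |x| → u x = 0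

/-- rotation of the windows `w` into the windows `f` -/
def Rot (ℓ : ℕ) {M : ℕ} (w f : Fin M → ℝ → ℂ) (u : ℝ → ℂ) (x : ℝ) : ℂ :=
  u x + ∑ μ, (f μ x - w μ x) * brk ℓ (w μ) u x

theorem rot_bdd {ℓ M : ℕ} {w f : Fin M → ℝ → ℂ} {u : ℝ → ℂ} {r : ℝ}
    (hw : ∀ μ x, r ≤ |x| → w μ x = 0) (hf : ∀ μ x, r ≤ |x| → f μ x = 0)
    (hu : ∀ x, r ≤ |x| → u x = 0) (x : ℝ) (hx : r ≤ |x|) : Rot ℓ w f u x = 0 := by
  simp [Rot, hw _ x hx, hf _ x hx, hu x hx]

/-! ### Finite supports -/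

/-- the integers `j` with `x + ℓ j` in a bounded interval -/
theorem E2_fin {ℓ : ℕ} (hℓ : 0 < ℓ) (r x : ℝ) :
    ∃ J : Finset ℤ, ∀ j : ℤ, j ∉ J → r ≤ |x + ℓ * j| := by
  refine ⟨Finset.Icc (-(⌈|r| + |x|⌉)) ⌈|r| + |x|⌉, fun j hj => ?_⟩
  by_contra h
  rw [not_le] at h
  apply hj
  have hℓ' : (1 : ℝ) ≤ ℓ := by exact_mod_cast hℓ
  have h1 : |(ℓ : ℝ) * j| ≤ |r| + |x| := by
    have : (ℓ : ℝ) * j = (x + ℓ * j) - x := by ring
    rw [this]
    have h2 := abs_sub (x + ℓ * j) x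
    have h3 := le_abs_self r
    linarith
  have h2 : |(j : ℝ)| ≤ |r| + |x| := by
    rw [abs_mul, Nat.abs_cast] at h1
    have := abs_nonneg (j : ℝ)
    nlinarith
  have h3 : |(j : ℝ)| ≤ (⌈|r| + |x|⌉ : ℤ) := h2.trans (Int.le_ceil _)
  rw [abs_le] at h3
  rw [Finset.mem_Icc]
  constructor
  · have := h3.1
    exact_mod_cast this
  · exact_mod_cast h3.2

theorem Bdd.fin {ℓ : ℕ} (hℓ : 0 < ℓ) {w : ℝ → ℂ} (hw : Bdd w) (x : ℝ) :
    ∃ J : Finset ℤ, ∀ j : ℤ, j ∉ J → w (x + ℓ * j) = 0 := by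
  obtain ⟨r, hr⟩ := hw
  obtain ⟨J, hJ⟩ := E2_fin hℓ r x
  exact ⟨J, fun j hj => hr _ (hJ j hj)⟩

theorem brk_eq_sum {ℓ : ℕ} {w : ℝ → ℂ} (u : ℝ → ℂ) {x : ℝ} {J : Finset ℤ}
    (hJ : ∀ j : ℤ, j ∉ J → w (x + ℓ * j) = 0) :
    brk ℓ w u x = ∑ j ∈ J, conj (w (x + ℓ * j)) * u (x + ℓ * j) := by
  refine tsum_eq_sum fun j hj => ?_
  rw [hJ j hj]
  simp

theorem brk_eq_sum' {ℓ : ℕ} (w : ℝ → ℂ) {u : ℝ → ℂ} {x : ℝ} {J : Finset ℤ}
    (hJ : ∀ j : ℤ, j ∉ J → u (x + ℓ * j) = 0) :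
    brk ℓ w u x = ∑ j ∈ J, conj (w (x + ℓ * j)) * u (x + ℓ * j) := by
  refine tsum_eq_sum fun j hj => ?_
  rw [hJ j hj]
  simp

theorem brk_conj (ℓ : ℕ) (w u : ℝ → ℂ) (x : ℝ) : conj (brk ℓ w u x) = brk ℓ u w x := by
  rw [brk, brk, Complex.conj_tsum]
  refine tsum_congr fun j => ?_
  rw [map_mul, Complex.conj_conj, mul_comm]

theorem brk_period (ℓ : ℕ) (w u : ℝ → ℂ) (x : ℝ) (k : ℤ) :
    brk ℓ w u (x + ℓ * k) = brk ℓ w u x := by
  rw [brk, brk, ← (Equiv.addRight k).tsum_eq (fun j : ℤ => conj (w (x + ℓ * j)) * u (x + ℓ * j))]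
  refine tsum_congr fun j => ?_
  have : x + ℓ * k + ℓ * j = x + (ℓ : ℝ) * ((j + k : ℤ) : ℝ) := by push_cast; ring
  simp only [Equiv.coe_addRight]
  rw [this]

/-! ### Kernels -/

theorem E2_L1 {ℓ : ℕ} (hℓ : 0 < ℓ) {i : ℕ} {w : ℝ → ℂ} {u : Fin i → ℝ → ℂ} (hw : Bdd w)
    {K : ℝ → ℤ → ℂ} (hK : ∀ x (k : ℤ), ∑ a, u a x * conj (u a (x + k)) = K x k) (x : ℝ) (k : ℤ) :
    ∑ a, brk ℓ w (u a) x * conj (u a (x + k)) =
      ∑' j : ℤ, conj (w (x + ℓ * j)) * K (x + ℓ * j) (k - ℓ * j) := by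
  obtain ⟨J, hJ⟩ := hw.fin hℓ x
  have h1 : ∑' j : ℤ, conj (w (x + ℓ * j)) * K (x + ℓ * j) (k - ℓ * j) =
      ∑ j ∈ J, conj (w (x + ℓ * j)) * K (x + ℓ * j) (k - ℓ * j) := by
    refine tsum_eq_sum fun j hj => ?_
    rw [hJ j hj]
    simp
  rw [h1]
  simp_rw [brk_eq_sum _ hJ, Finset.sum_mul]
  rw [Finset.sum_comm]
  refine Finset.sum_congr rfl fun j _ => ?_
  rw [← hK, Finset.mul_sum]
  refine Finset.sum_congr rfl fun a _ => ?_
  have : x + (k : ℝ) = x + ℓ * j + ((k - ℓ * j : ℤ) : ℝ) := by push_cast; ring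
  rw [this]
  ring

theorem E2_L2 {ℓ : ℕ} (hℓ : 0 < ℓ) {i : ℕ} {w w' : ℝ → ℂ} {u : Fin i → ℝ → ℂ} (hw : Bdd w)
    (hw' : Bdd w')
    {K : ℝ → ℤ → ℂ} (hK : ∀ x (k : ℤ), ∑ a, u a x * conj (u a (x + k)) = K x k) (x : ℝ) (k : ℤ) :
    ∑ a, brk ℓ w (u a) x * conj (brk ℓ w' (u a) (x + k)) =
      ∑' j' : ℤ, w' (x + k + ℓ * j') *
        ∑' j : ℤ, conj (w (x + ℓ * j)) * K (x + ℓ * j) (k + ℓ * j' - ℓ * j) := by
  obtain ⟨J, hJ⟩ := hw'.fin hℓ (x + k)
  have h1 : ∑' j' : ℤ, w' (x + k + ℓ * j') *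
        ∑' j : ℤ, conj (w (x + ℓ * j)) * K (x + ℓ * j) (k + ℓ * j' - ℓ * j) =
      ∑ j' ∈ J, w' (x + k + ℓ * j') *
        ∑' j : ℤ, conj (w (x + ℓ * j)) * K (x + ℓ * j) (k + ℓ * j' - ℓ * j) := by
    refine tsum_eq_sum fun j hj => ?_
    rw [hJ j hj]
    simp
  rw [h1]
  simp_rw [brk_eq_sum _ hJ, map_sum, Finset.mul_sum]
  rw [Finset.sum_comm]
  refine Finset.sum_congr rfl fun j _ => ?_
  have h2 := E2_L1 hℓ hw hK x (k + ℓ * j)
  rw [← h2, Finset.mul_sum]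
  refine Finset.sum_congr rfl fun a _ => ?_
  have : x + ((k + ℓ * j : ℤ) : ℝ) = x + k + ℓ * j := by push_cast; ring
  rw [this, map_mul, Complex.conj_conj]
  ring

theorem rot_kernel {ℓ : ℕ} (hℓ : 0 < ℓ) {i M : ℕ} {w f : Fin M → ℝ → ℂ} {u : Fin i → ℝ → ℂ}
    (hw : ∀ μ, Bdd (w μ)) (hf : ∀ μ, Bdd (f μ)) (hu : ∀ a, Bdd (u a)) {K : ℝ → ℤ → ℂ}
    (hK : ∀ x (k : ℤ), ∑ a, u a x * conj (u a (x + k)) = K x k)
    (how : ∀ μ ν x, brk ℓ (w μ) (w ν) x = if μ = ν then 1 else 0)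
    (hstar : ∀ μ x (k : ℤ), ∑' j : ℤ, conj (w μ (x + ℓ * j)) * K (x + ℓ * j) (k - ℓ * j) =
      if (ℓ : ℤ) ∣ k then conj (w μ (x + k)) else 0) (x : ℝ) (k : ℤ) :
    ∑ a, Rot ℓ w f (u a) x * conj (Rot ℓ w f (u a) (x + k)) =
      K x k + if (ℓ : ℤ) ∣ k then ∑ μ, (f μ x * conj (f μ (x + k)) - w μ x * conj (w μ (x + k)))
        else 0 := by
  -- the three mixed sums
  have m1 : ∀ μ x (k : ℤ), ∑ a, brk ℓ (w μ) (u a) x * conj (u a (x + k)) =
      if (ℓ : ℤ) ∣ k then conj (w μ (x + k)) else 0 := fun μ x k => by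
    rw [E2_L1 hℓ (hw μ) hK x k, hstar]
  have m2 : ∀ μ, ∑ a, u a x * conj (brk ℓ (w μ) (u a) (x + k)) =
      if (ℓ : ℤ) ∣ k then w μ x else 0 := fun μ => by
    have h := m1 μ (x + k) (-k)
    have hx : x + k + ((-k : ℤ) : ℝ) = x := by push_cast; ring
    rw [hx] at h
    have h' := congrArg conj h
    rw [map_sum] at h'
    simp only [map_mul, Complex.conj_conj, dvd_neg] at h'
    rw [apply_ite conj, Complex.conj_conj, map_zero] at h'
    rw [← h']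
    refine Finset.sum_congr rfl fun a _ => mul_comm _ _
  have m3 : ∀ μ ν, ∑ a, brk ℓ (w μ) (u a) x * conj (brk ℓ (w ν) (u a) (x + k)) =
      if (ℓ : ℤ) ∣ k then (if μ = ν then 1 else 0) else 0 := fun μ ν => by
    rw [E2_L2 hℓ (hw μ) (hw ν) hK x k]
    have h1 : ∀ j' : ℤ, w ν (x + k + ℓ * j') * ∑' j : ℤ, conj (w μ (x + ℓ * j)) *
        K (x + ℓ * j) (k + ℓ * j' - ℓ * j) =
        if (ℓ : ℤ) ∣ k then conj (w μ (x + k + ℓ * j')) * w ν (x + k + ℓ * j') else 0 := by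
      intro j'
      rw [hstar μ x (k + ℓ * j')]
      have h2 : ((ℓ : ℤ) ∣ k + ℓ * j') ↔ (ℓ : ℤ) ∣ k := by
        rw [Int.dvd_add_left (dvd_mul_right _ _)]
      have h3 : x + ((k + ℓ * j' : ℤ) : ℝ) = x + k + ℓ * j' := by push_cast; ring
      simp only [h2, h3]
      split_ifs
      · ring
      · ring
    simp_rw [h1]
    split_ifs with hk hμν
    · have := how μ ν (x + k)
      rw [if_pos hμν] at this
      exact this
    · have := how μ ν (x + k)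
      rw [if_neg hμν] at this
      exact this
    · simp
  set g : Fin M → ℝ → ℂ := fun μ y => f μ y - w μ y with hg
  have e1 : ∀ a, Rot ℓ w f (u a) x * conj (Rot ℓ w f (u a) (x + k)) =
      u a x * conj (u a (x + k)) +
      ∑ μ, g μ x * (brk ℓ (w μ) (u a) x * conj (u a (x + k))) +
      ∑ ν, conj (g ν (x + k)) * (u a x * conj (brk ℓ (w ν) (u a) (x + k))) +
      ∑ μ, ∑ ν, g μ x * conj (g ν (x + k)) *
        (brk ℓ (w μ) (u a) x * conj (brk ℓ (w ν) (u a) (x + k))) := by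
    intro a
    simp only [Rot, map_add, map_sum, map_mul]
    rw [add_mul, mul_add, mul_add, Finset.sum_mul, Finset.mul_sum, Finset.sum_mul_sum]
    have t1 : ∑ μ, g μ x * brk ℓ (w μ) (u a) x * conj (u a (x + k)) =
      ∑ μ, g μ x * (brk ℓ (w μ) (u a) x * conj (u a (x + k))) :=
      Finset.sum_congr rfl fun μ _ => by ring
    have t2 : ∑ ν, u a x * (conj (g ν (x + k)) * conj (brk ℓ (w ν) (u a) (x + k))) =
      ∑ ν, conj (g ν (x + k)) * (u a x * conj (brk ℓ (w ν) (u a) (x + k))) :=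
      Finset.sum_congr rfl fun μ _ => by ring
    have t3 : ∑ μ, ∑ ν, g μ x * brk ℓ (w μ) (u a) x *
        (conj (g ν (x + k)) * conj (brk ℓ (w ν) (u a) (x + k))) =
      ∑ μ, ∑ ν, g μ x * conj (g ν (x + k)) *
        (brk ℓ (w μ) (u a) x * conj (brk ℓ (w ν) (u a) (x + k))) :=
      Finset.sum_congr rfl fun μ _ => Finset.sum_congr rfl fun ν _ => by ring
    have t1' : ∑ μ, (f μ x - w μ x) * brk ℓ (w μ) (u a) x * conj (u a (x + k)) =
      ∑ μ, g μ x * brk ℓ (w μ) (u a) x * conj (u a (x + k)) := rfl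
    rw [← t1, ← t2, ← t3]
    simp only [hg, map_sub]
    ring
  simp_rw [e1]
  rw [Finset.sum_add_distrib, Finset.sum_add_distrib, Finset.sum_add_distrib, hK]
  have s1 : ∑ a, ∑ μ, g μ x * (brk ℓ (w μ) (u a) x * conj (u a (x + k))) =
      ∑ μ, g μ x * (if (ℓ : ℤ) ∣ k then conj (w μ (x + k)) else 0) := by
    rw [Finset.sum_comm]
    refine Finset.sum_congr rfl fun μ _ => ?_
    rw [← Finset.mul_sum, m1]
  have s2 : ∑ a, ∑ ν, conj (g ν (x + k)) * (u a x * conj (brk ℓ (w ν) (u a) (x + k))) =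
      ∑ ν, conj (g ν (x + k)) * (if (ℓ : ℤ) ∣ k then w ν x else 0) := by
    rw [Finset.sum_comm]
    refine Finset.sum_congr rfl fun μ _ => ?_
    rw [← Finset.mul_sum, m2]
  have s3 : ∑ a, ∑ μ, ∑ ν, g μ x * conj (g ν (x + k)) *
        (brk ℓ (w μ) (u a) x * conj (brk ℓ (w ν) (u a) (x + k))) =
      ∑ μ, ∑ ν, g μ x * conj (g ν (x + k)) *
        (if (ℓ : ℤ) ∣ k then (if μ = ν then 1 else 0) else 0) := by
    rw [Finset.sum_comm]
    refine Finset.sum_congr rfl fun μ _ => ?_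
    rw [Finset.sum_comm]
    refine Finset.sum_congr rfl fun ν _ => ?_
    rw [← Finset.mul_sum, m3]
  rw [s1, s2, s3]
  split_ifs with hk
  · have s3' : ∑ μ, ∑ ν, g μ x * conj (g ν (x + k)) * (if μ = ν then (1 : ℂ) else 0) =
        ∑ μ, g μ x * conj (g μ (x + k)) := by
      refine Finset.sum_congr rfl fun μ _ => ?_
      simp
    rw [s3', add_assoc, add_assoc, ← Finset.sum_add_distrib, ← Finset.sum_add_distrib]
    congr 1
    refine Finset.sum_congr rfl fun μ _ => ?_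
    simp only [hg, map_sub]
    ring
  · simp

theorem brk_zero {ℓ : ℕ} (hℓ : 0 < ℓ) {i : ℕ} {w : ℝ → ℂ} {u : Fin i → ℝ → ℂ}
    (hw : Bdd w) (hu : ∀ a, Bdd (u a)) {K : ℝ → ℤ → ℂ}
    (hK : ∀ x (k : ℤ), ∑ a, u a x * conj (u a (x + k)) = K x k)
    (hstar : ∀ x (k : ℤ), ∑' j : ℤ, conj (w (x + ℓ * j)) * K (x + ℓ * j) (k - ℓ * j) = 0)
    (a : Fin i) (x : ℝ) : brk ℓ w (u a) x = 0 := by
  have h := E2_L2 hℓ hw hw hK x 0
  simp_rw [hstar] at h
  simp only [Int.cast_zero, add_zero, mul_zero, tsum_zero] at h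
  have h1 : ∑ a, ‖brk ℓ w (u a) x‖ ^ 2 = 0 := by
    have h2 : ((∑ a, ‖brk ℓ w (u a) x‖ ^ 2 : ℝ) : ℂ) = 0 := by
      rw [← h]
      push_cast
      refine Finset.sum_congr rfl fun a _ => ?_
      rw [Complex.mul_conj, Complex.normSq_eq_norm_sq]
      push_cast
      rfl
    exact_mod_cast h2
  have h2 := (Finset.sum_eq_zero_iff_of_nonneg (fun a _ => by positivity)).mp h1 a
    (Finset.mem_univ a)
  simpa using h2

/-! ### Norms -/

/-- The abstract rotation is isometric. -/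
theorem E2_isom {E : Type*} [NormedAddCommGroup E] [InnerProductSpace ℂ E] {M : ℕ}
    (W F : Fin M → E) (U : E) (c : ℂ)
    (hW : ∀ μ ν, inner ℂ (W μ) (W ν) = if μ = ν then (1 : ℂ) else 0)
    (hF : ∀ μ ν, inner ℂ (F μ) (F ν) = if μ = ν then (1 : ℂ) else 0)
    (hWF : ∀ μ ν, inner ℂ (W μ) (F ν) = if μ = ν then c else 0)
    (hFU : ∀ μ, inner ℂ (F μ) U = conj c * inner ℂ (W μ) U) :
    ‖U + ∑ μ, (inner ℂ (W μ) U : ℂ) • (F μ - W μ)‖ ^ 2 = ‖U‖ ^ 2 := by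
  have hFW : ∀ μ ν, inner ℂ (F μ) (W ν) = if μ = ν then conj c else 0 := by
    intro μ ν
    rw [← inner_conj_symm, hWF]
    by_cases h : μ = ν
    · simp [h]
    · rw [if_neg (fun h' => h h'.symm), if_neg h, map_zero]
  set C : Fin M → ℂ := fun μ => inner ℂ (W μ) U with hC
  set G : Fin M → E := fun μ => F μ - W μ with hG
  have hGU : ∀ μ, inner ℂ (G μ) U = (conj c - 1) * C μ := by
    intro μ
    simp only [hG, inner_sub_left, hFU, hC]
    ring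
  have hUG : ∀ μ, inner ℂ U (G μ) = (c - 1) * conj (C μ) := by
    intro μ
    rw [← inner_conj_symm, hGU]
    simp
  have hGG : ∀ μ ν, inner ℂ (G μ) (G ν) = if μ = ν then 2 - c - conj c else 0 := by
    intro μ ν
    simp only [hG, inner_sub_left, inner_sub_right, hW, hF, hWF, hFW]
    split_ifs
    · ring
    · ring
  have h1 : (inner ℂ (U + ∑ μ, C μ • G μ) (U + ∑ μ, C μ • G μ) : ℂ) = inner ℂ U U := by
    rw [inner_add_left, inner_add_right, inner_add_right]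
    have a1 : (inner ℂ U (∑ μ, C μ • G μ) : ℂ) = ∑ μ, (c - 1) * (C μ * conj (C μ)) := by
      rw [inner_sum]
      refine Finset.sum_congr rfl fun μ _ => ?_
      rw [inner_smul_right, hUG]
      ring
    have a2 : (inner ℂ (∑ μ, C μ • G μ) U : ℂ) = ∑ μ, (conj c - 1) * (C μ * conj (C μ)) := by
      rw [sum_inner]
      refine Finset.sum_congr rfl fun μ _ => ?_
      rw [inner_smul_left, hGU]
      ring
    have a3 : (inner ℂ (∑ μ, C μ • G μ) (∑ μ, C μ • G μ) : ℂ) =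
        ∑ μ, (2 - c - conj c) * (C μ * conj (C μ)) := by
      rw [sum_inner]
      refine Finset.sum_congr rfl fun μ _ => ?_
      rw [inner_sum]
      have : ∀ ν, (inner ℂ (C μ • G μ) (C ν • G ν) : ℂ) =
          if μ = ν then conj (C μ) * C ν * (2 - c - conj c) else 0 := by
        intro ν
        rw [inner_smul_left, inner_smul_right, hGG]
        split_ifs
        · ring
        · ring
      simp_rw [this]
      rw [Finset.sum_ite_eq]
      simp only [Finset.mem_univ, if_true]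
      ring
    rw [a1, a2, a3, add_assoc, ← Finset.sum_add_distrib, ← Finset.sum_add_distrib]
    rw [Finset.sum_eq_zero, add_zero]
    intro μ _
    ring
  have h2 := congrArg Complex.re h1
  have h3 : ∀ v : E, (inner ℂ v v : ℂ).re = ‖v‖ ^ 2 := fun v => by
    have := inner_self_eq_norm_sq_to_K (𝕜 := ℂ) v
    rw [this]
    norm_cast
  rw [h3, h3] at h2
  exact h2

/-- Unfolding an integral. -/
theorem E2_unfold {ℓ : ℕ} (hℓ : 0 < ℓ) (F : ℝ → ℝ) (hF : Continuous F) {r : ℝ}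
    (hr : ∀ x, r ≤ |x| → F x = 0) (hz : ∀ x, ∑' j : ℤ, F (x + ℓ * j) = 0) : ∫ x, F x = 0 := by
  have hℓ' : (0 : ℝ) < ℓ := by exact_mod_cast hℓ
  -- a bound for the number of translates
  set N : ℕ := ⌈|r|⌉₊ + 1 with hN
  have hNr : |r| ≤ ℓ * (N : ℝ) := by
    have h1 : |r| ≤ (⌈|r|⌉₊ : ℝ) := Nat.le_ceil _
    have h2 : (1 : ℝ) ≤ ℓ := by exact_mod_cast hℓ
    have h3 : (0 : ℝ) ≤ (⌈|r|⌉₊ : ℝ) := by positivity
    rw [hN]
    push_cast
    nlinarith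
  have hvan : ∀ x, ℓ * (N : ℝ) ≤ |x| → F x = 0 := fun x hx =>
    hr x ((le_abs_self r).trans (hNr.trans hx))
  -- the integral over `[-ℓN, ℓN]`
  have h1 : ∫ x, F x = ∫ x in (-(ℓ * (N : ℝ)))..(ℓ * (N : ℝ)), F x := by
    rw [intervalIntegral.integral_of_le (by
      have : (0 : ℝ) ≤ ℓ * (N : ℝ) := by positivity
      linarith)]
    refine (setIntegral_eq_integral_of_forall_compl_eq_zero ?_).symm
    intro x hx
    apply hvan
    by_contra hlt
    rw [not_le, abs_lt] at hlt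
    exact hx ⟨hlt.1, hlt.2.le⟩
  set a : ℕ → ℝ := fun k => -(ℓ * (N : ℝ)) + ℓ * k with ha
  have h2 : ∫ x in (-(ℓ * (N : ℝ)))..(ℓ * (N : ℝ)), F x =
      ∑ k ∈ Finset.range (2 * N), ∫ x in (a k)..(a (k + 1)), F x := by
    rw [intervalIntegral.sum_integral_adjacent_intervals
      (fun k _ => hF.intervalIntegrable _ _)]
    congr 1
    · simp [ha]
    · simp only [ha]
      push_cast
      ring
  have h3 : ∀ k : ℕ, ∫ x in (a k)..(a (k + 1)), F x =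
      ∫ x in (0 : ℝ)..ℓ, F (x + ℓ * (((k : ℤ) - N : ℤ) : ℝ)) := by
    intro k
    rw [intervalIntegral.integral_comp_add_right (fun x => F x)]
    congr 1
    · simp only [ha]; push_cast; ring
    · simp only [ha]; push_cast; ring
  rw [h1, h2]
  simp_rw [h3]
  have hcont : ∀ k : ℕ, Continuous (fun x => F (x + ℓ * (((k : ℤ) - N : ℤ) : ℝ))) :=
    fun k => hF.comp (by fun_prop)
  rw [← intervalIntegral.integral_finsetSum
    (fun k _ => (hcont k).intervalIntegrable _ _)]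
  have h4 : ∀ x ∈ Set.uIcc (0 : ℝ) ℓ, ∑ k ∈ Finset.range (2 * N),
      F (x + ℓ * (((k : ℤ) - N : ℤ) : ℝ)) = 0 := by
    intro x hx
    rw [Set.uIcc_of_le hℓ'.le] at hx
    have h5 : ∑' j : ℤ, F (x + ℓ * j) = ∑ j ∈ (Finset.range (2 * N)).image
        (fun k : ℕ => ((k : ℤ) - N : ℤ)), F (x + ℓ * j) := by
      refine tsum_eq_sum fun j hj => ?_
      apply hvan
      by_contra hlt
      rw [not_le, abs_lt] at hlt
      apply hj
      rw [Finset.mem_image]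
      have h6 : -(N : ℤ) - 1 < j := by
        have : -((N : ℝ)) - 1 < j := by
          have := hlt.1
          have hx2 := hx.2
          nlinarith
        exact_mod_cast this
      have h7 : j < N := by
        have : (j : ℝ) < N := by
          have := hlt.2
          have hx1 := hx.1
          nlinarith
        exact_mod_cast this
      refine ⟨(j + N).toNat, ?_, ?_⟩
      · rw [Finset.mem_range]
        omega
      · omega
    rw [hz] at h5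
    rw [h5, Finset.sum_image]
    intro k _ k' _ h
    simpa using h
  rw [intervalIntegral.integral_congr h4]
  simp

theorem E2_toE {ℓ : ℕ} (J : Finset ℤ) (x : ℝ) (g g' : ℝ → ℂ)
    (h : ∀ j : ℤ, j ∉ J → g (x + ℓ * j) = 0) :
    (inner ℂ (WithLp.toLp 2 (fun j : J => g (x + ℓ * (j : ℤ))) : EuclideanSpace ℂ J)
      (WithLp.toLp 2 (fun j : J => g' (x + ℓ * (j : ℤ))) : EuclideanSpace ℂ J) : ℂ) =
      brk ℓ g g' x := by
  rw [brk_eq_sum g' h, PiLp.inner_apply]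
  simp only [RCLike.inner_apply]
  rw [← Finset.sum_coe_sort J]
  refine Finset.sum_congr rfl fun j _ => mul_comm _ _

/-- The bracket in `Rot` may be replaced by a finite sum with a fixed range. -/
theorem E2_formula {ℓ : ℕ} (hℓ : 0 < ℓ) {M : ℕ} {w f : Fin M → ℝ → ℂ} (u : ℝ → ℂ) {r : ℝ}
    (hw : ∀ μ x, r ≤ |x| → w μ x = 0) (hf : ∀ μ x, r ≤ |x| → f μ x = 0) (x : ℝ) :
    Rot ℓ w f u x = u x + ∑ μ, (f μ x - w μ x) *
      ∑ j ∈ Finset.Icc (-⌈2 * |r|⌉) ⌈2 * |r|⌉, conj (w μ (x + ℓ * j)) * u (x + ℓ * j) := by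
  rw [Rot]
  congr 1
  refine Finset.sum_congr rfl fun μ _ => ?_
  rcases le_or_gt r |x| with h | h
  · rw [hw μ x h, hf μ x h]
    simp
  · congr 1
    refine brk_eq_sum u fun j hj => hw μ _ ?_
    by_contra hlt
    rw [not_le] at hlt
    apply hj
    have hℓ' : (1 : ℝ) ≤ ℓ := by exact_mod_cast hℓ
    have h1 : |(ℓ : ℝ) * j| ≤ 2 * |r| := by
      have : (ℓ : ℝ) * j = (x + ℓ * j) - x := by ring
      rw [this]
      have h2 := abs_sub (x + ℓ * j) x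
      have h3 := le_abs_self r
      linarith
    have h2 : |(j : ℝ)| ≤ 2 * |r| := by
      rw [abs_mul, Nat.abs_cast] at h1
      have := abs_nonneg (j : ℝ)
      nlinarith
    have h3 : |(j : ℝ)| ≤ (⌈2 * |r|⌉ : ℤ) := h2.trans (Int.le_ceil _)
    rw [abs_le] at h3
    rw [Finset.mem_Icc]
    constructor
    · have := h3.1
      exact_mod_cast this
    · exact_mod_cast h3.2

theorem E2_common {ι : Type*} [Fintype ι] (g : ι → ℝ → ℂ) (h : ∀ i, Bdd (g i)) :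
    ∃ r : ℝ, ∀ i x, r ≤ |x| → g i x = 0 := by
  choose r hr using h
  refine ⟨∑ i, |r i|, fun i x hx => hr i x ?_⟩
  calc r i ≤ |r i| := le_abs_self _
    _ ≤ ∑ i, |r i| := Finset.single_le_sum (f := fun i => |r i|) (fun i _ => abs_nonneg _)
        (Finset.mem_univ i)
    _ ≤ |x| := hx

theorem rot_norm {ℓ : ℕ} (hℓ : 0 < ℓ) {M : ℕ} {w f : Fin M → ℝ → ℂ} {u : ℝ → ℂ}
    (hw : ∀ μ, Bdd (w μ)) (hf : ∀ μ, Bdd (f μ)) (hu : Bdd u)
    (hwc : ∀ μ, Continuous (w μ)) (hfc : ∀ μ, Continuous (f μ)) (huc : Continuous u)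
    (how : ∀ μ ν x, brk ℓ (w μ) (w ν) x = if μ = ν then 1 else 0)
    (hof : ∀ μ ν x, brk ℓ (f μ) (f ν) x = if μ = ν then 1 else 0)
    (c : ℂ) (hwf : ∀ μ ν x, brk ℓ (w μ) (f ν) x = if μ = ν then c else 0)
    (hfu : ∀ μ x, brk ℓ (f μ) u x = conj c * brk ℓ (w μ) u x) :
    ∫ x, ‖Rot ℓ w f u x‖ ^ 2 = ∫ x, ‖u x‖ ^ 2 := by
  obtain ⟨r1, hr1⟩ := E2_common w hw
  obtain ⟨r2, hr2⟩ := E2_common f hf
  obtain ⟨r3, hr3⟩ := hu
  set r := max (max r1 r2) r3 with hr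
  have hw' : ∀ μ x, r ≤ |x| → w μ x = 0 := fun μ x h =>
    hr1 μ x (((le_max_left _ _).trans (le_max_left _ _)).trans h)
  have hf' : ∀ μ x, r ≤ |x| → f μ x = 0 := fun μ x h =>
    hr2 μ x (((le_max_right _ _).trans (le_max_left _ _)).trans h)
  have hu' : ∀ x, r ≤ |x| → u x = 0 := fun x h => hr3 x ((le_max_right _ _).trans h)
  set v := Rot ℓ w f u with hv
  have hv' : ∀ x, r ≤ |x| → v x = 0 := fun x h => rot_bdd hw' hf' hu' x h
  have hvc : Continuous v := by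
    have : v = fun x => u x + ∑ μ, (f μ x - w μ x) *
      ∑ j ∈ Finset.Icc (-⌈2 * |r|⌉) ⌈2 * |r|⌉, conj (w μ (x + ℓ * j)) * u (x + ℓ * j) := by
      funext x
      exact E2_formula hℓ u hw' hf' x
    rw [this]
    refine huc.add (continuous_finsetSum _ fun μ _ => ((hfc μ).sub (hwc μ)).mul
      (continuous_finsetSum _ fun j _ => ?_))
    exact (Complex.continuous_conj.comp ((hwc μ).comp (by fun_prop))).mul
      (huc.comp (by fun_prop))
  have hint : ∀ g : ℝ → ℂ, Continuous g → (∀ x, r ≤ |x| → g x = 0) →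
      Integrable (fun x => ‖g x‖ ^ 2) := by
    intro g hg hg0
    refine Continuous.integrable_of_hasCompactSupport (by fun_prop) ?_
    refine HasCompactSupport.of_support_subset_isCompact (isCompact_Icc (a := -|r|) (b := |r|)) ?_
    intro x hx
    by_contra hlt
    apply hx
    have : r ≤ |x| := by
      by_contra h
      rw [not_le] at h
      apply hlt
      have h1 := abs_lt.mp (h.trans_le (le_abs_self r))
      exact ⟨h1.1.le, h1.2.le⟩
    simp [hg0 x this]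
  have hzero := E2_unfold hℓ (fun x => ‖v x‖ ^ 2 - ‖u x‖ ^ 2) (by fun_prop) (r := r)
    (fun x h => by simp [hv' x h, hu' x h]) (by
      intro x
      obtain ⟨J, hJ⟩ := E2_fin hℓ r x
      have hw2 : ∀ μ (j : ℤ), j ∉ J → w μ (x + ℓ * j) = 0 := fun μ j hj => hw' μ _ (hJ j hj)
      have hf2 : ∀ μ (j : ℤ), j ∉ J → f μ (x + ℓ * j) = 0 := fun μ j hj => hf' μ _ (hJ j hj)
      have h1 : ∑' j : ℤ, (‖v (x + ℓ * j)‖ ^ 2 - ‖u (x + ℓ * j)‖ ^ 2) =
          ∑ j ∈ J, (‖v (x + ℓ * j)‖ ^ 2 - ‖u (x + ℓ * j)‖ ^ 2) := by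
        refine tsum_eq_sum fun j hj => ?_
        simp [hv' _ (hJ j hj), hu' _ (hJ j hj)]
      rw [h1, Finset.sum_sub_distrib, sub_eq_zero]
      set T : (ℝ → ℂ) → EuclideanSpace ℂ J := fun g =>
        WithLp.toLp 2 (fun j : J => g (x + ℓ * (j : ℤ))) with hT
      have hTn : ∀ g : ℝ → ℂ, ‖T g‖ ^ 2 = ∑ j ∈ J, ‖g (x + ℓ * j)‖ ^ 2 := by
        intro g
        rw [EuclideanSpace.norm_sq_eq, ← Finset.sum_coe_sort J]
      have key := E2_isom (fun μ => T (w μ)) (fun μ => T (f μ)) (T u) c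
        (fun μ ν => by rw [hT]; simp only; rw [E2_toE J x _ _ (hw2 μ)]; exact how μ ν x)
        (fun μ ν => by rw [hT]; simp only; rw [E2_toE J x _ _ (hf2 μ)]; exact hof μ ν x)
        (fun μ ν => by rw [hT]; simp only; rw [E2_toE J x _ _ (hw2 μ)]; exact hwf μ ν x)
        (fun μ => by
          rw [hT]; simp only
          rw [E2_toE J x _ _ (hw2 μ), E2_toE J x _ _ (hf2 μ)]; exact hfu μ x)
      rw [← hTn, ← hTn, ← key]
      congr 2
      have hb : ∀ μ, (inner ℂ (T (w μ)) (T u) : ℂ) = brk ℓ (w μ) u x := fun μ => by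
        rw [hT]; simp only; rw [E2_toE J x _ _ (hw2 μ)]
      simp_rw [hb]
      ext j
      simp only [hT, hv, Rot, brk_period, PiLp.add_apply, WithLp.ofLp_sum, Finset.sum_apply,
        PiLp.smul_apply, PiLp.sub_apply, smul_eq_mul]
      congr 1
      refine Finset.sum_congr rfl fun μ _ => mul_comm _ _)
  rw [integral_sub (hint v hvc hv') (hint u huc hu')] at hzero
  linarith

theorem rot_smooth {P : Type*} [NormedAddCommGroup P] [NormedSpace ℝ P] {ℓ : ℕ} (hℓ : 0 < ℓ)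
    {M : ℕ} {w : Fin M → ℝ → ℂ} {f : Fin M → P → ℝ → ℂ} {u : P → ℝ → ℂ} {r : ℝ}
    (hw : ∀ μ x, r ≤ |x| → w μ x = 0) (hf : ∀ μ v x, r ≤ |x| → f μ v x = 0)
    (hwc : ∀ μ, ContDiff ℝ ∞ (w μ))
    (hfc : ∀ μ, ContDiff ℝ ∞ (fun z : P × ℝ => f μ z.1 z.2))
    (huc : ContDiff ℝ ∞ (fun z : P × ℝ => u z.1 z.2)) :
    ContDiff ℝ ∞ (fun z : P × ℝ => Rot ℓ w (fun μ => f μ z.1) (u z.1) z.2) := by
  have h : (fun z : P × ℝ => Rot ℓ w (fun μ => f μ z.1) (u z.1) z.2) = fun z : P × ℝ =>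
      u z.1 z.2 + ∑ μ, (f μ z.1 z.2 - w μ z.2) *
      ∑ j ∈ Finset.Icc (-⌈2 * |r|⌉) ⌈2 * |r|⌉,
        conj (w μ (z.2 + ℓ * j)) * u z.1 (z.2 + ℓ * j) := by
    funext z
    exact E2_formula hℓ (u z.1) hw (fun μ x hx => hf μ z.1 x hx) z.2
  rw [h]
  refine huc.add (ContDiff.sum fun μ _ => ((hfc μ).sub ((hwc μ).comp contDiff_snd)).mul
    (ContDiff.sum fun j _ => ?_))
  have hs : ContDiff ℝ ∞ (fun z : P × ℝ => (z.1, z.2 + (ℓ : ℝ) * j)) :=
    contDiff_fst.prodMk (contDiff_snd.add contDiff_const)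
  refine ContDiff.mul ?_ (huc.comp hs)
  exact Complex.conjCLE.contDiff.comp ((hwc μ).comp (contDiff_snd.add contDiff_const))

end Wav
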